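import Pool.Agent.DPL.StmtsA
import Pool.Agent.Helper59_DPS.All

/-!
Row LZE of the squad DPL: the level 0
-/

set_option autoImplicit false

namespace Pool.Agent.DPL.H76

open Finset Polynomial Pool.Agent.DPS Pool.Agent.DPL

/-- a polynomial vanishing at all nodes kills everything -/
theorem aeval_zero_of_eval {n k : ℕ} (hn : 2 * k ≤ n) (N : ℝ[X])
    (hN : ∀ l, l ≤ k → N.eval (y n l) = 0) : aeval (Y n k) N = 0 := by
  have hdvd : (∏ l ∈ Finset.range (k + 1), (C (y n l) - X)) ∣ N := by
    refine Finset.prod_dvd_of_coprime ?_ ?_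
    · intro a ha b hb hab
      rw [Finset.mem_coe, Finset.mem_range] at ha hb
      have hne : y n a ≠ y n b := by
        rcases Nat.lt_or_gt_of_ne hab with h | h
        · exact (H33.y_lt hn h (by omega)).ne
        · exact (H33.y_lt hn h (by omega)).ne'
      have h3 : IsCoprime (X - C (y n a)) (X - C (y n b)) :=
        Polynomial.isCoprime_X_sub_C_of_isUnit_sub (sub_ne_zero.2 hne).isUnit
      have h4 := h3.neg_neg
      rw [neg_sub, neg_sub] at h4
      exact h4
    · intro l hl
      rw [Finset.mem_range] at hl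
      have h3 : (X - C (y n l)) ∣ N := by
        rw [Polynomial.dvd_iff_isRoot]
        exact hN l (by omega)
      rw [← neg_sub, neg_dvd]
      exact h3
  obtain ⟨R, hR⟩ := hdvd
  rw [hR, map_mul, H94.ann H59.mpo' n k, zero_mul]

theorem lze : LZEStmt := by
  intro n k hn f
  have hinj : Set.InjOn (y n) (Finset.range (k + 1) : Finset ℕ) := by
    intro a ha b hb hab
    rw [Finset.mem_coe, Finset.mem_range] at ha hb
    rcases Nat.lt_trichotomy a b with h | h | h
    · exact absurd hab (H33.y_lt hn h (by omega)).ne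
    · exact h
    · exact absurd hab (H33.y_lt hn h (by omega)).ne'
  have h0 : aeval (Y n k) (mp n k 0 - C (n.choose k : ℝ) * eb n k 0) = 0 := by
    refine aeval_zero_of_eval hn _ fun l hl => ?_
    rw [eval_sub, eval_mul, eval_C, H39.mev n k 0 l hn (Nat.zero_le _) hl]
    unfold eb
    by_cases h : l = 0
    · subst h
      rw [Lagrange.eval_basis_self hinj (Finset.mem_range.mpr (by omega))]
      simp
    · rw [Lagrange.eval_basis_of_ne (Ne.symm h) (Finset.mem_range.mpr (by omega))]
      rw [if_neg (by omega)]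
      ring
  have h1 : M n k 0 = (n.choose k : ℝ) • E n k 0 := by
    rw [map_sub, map_mul, H59.mpo' n k 0 (Nat.zero_le _), sub_eq_zero] at h0
    rw [h0, aeval_C, Algebra.algebraMap_eq_smul_one, smul_mul_assoc, one_mul]
    rfl
  have h2 := H88.qua n k 0 f
  rw [h1] at h2
  have h3 : ip f (((n.choose k : ℝ) • E n k 0) f) = (n.choose k : ℝ) * lw n k 0 f := by
    rw [LinearMap.smul_apply, H33.ip_smul]
    rfl
  rw [h3] at h2
  rw [mul_comm, h2]
  rw [Finset.powersetCard_zero, Finset.sum_singleton]
  unfold dg
  simp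

end Pool.Agent.DPL.H76
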